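import Pool.Agent.Helper74.UB.Goals5

/-!
# UB, ATYP: the number of starts that are not typical
-/

namespace Pool.Agent.Helper76.UB

open Finset Equiv Helper28.VF Pool.Agent.Helper74.UB
open scoped Classical

theorem card_filter_le_of {α : Type} [Fintype α] (P : α → Prop) [DecidablePred P] (S : Finset α)
    (h : ∀ x, P x → x ∈ S) : (univ.filter P).card ≤ S.card := by
  apply card_le_card
  intro x hx
  exact h x (mem_filter.1 hx).2

theorem dart_le {D V E F : Type} [Fintype D] [Fintype V] [Fintype E] [Fintype F]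
    (M : PM D V E F) (hlink : ∀ v, link M v ≤ 7) (B : Finset V) :
    (univ.filter fun d => M.vt d ∈ B).card ≤ 7 * B.card := by
  have h1 : ∀ v, (univ.filter fun d => M.vt d = v).card ≤ 7 := by
    intro v
    refine le_trans ?_ (hlink v)
    unfold link
    rw [card_eq_sum_ones]
    refine sum_le_sum ?_
    intro d _
    split_ifs
    · exact le_refl _
    · omega
  have h2 : (univ.filter fun d => M.vt d ∈ B) ⊆
      B.biUnion fun v => univ.filter fun d => M.vt d = v := by
    intro d hd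
    rw [mem_filter] at hd
    rw [mem_biUnion]
    exact ⟨M.vt d, hd.2, mem_filter.2 ⟨mem_univ _, rfl⟩⟩
  calc (univ.filter fun d => M.vt d ∈ B).card
      ≤ (B.biUnion fun v => univ.filter fun d => M.vt d = v).card := card_le_card h2
    _ ≤ ∑ v ∈ B, (univ.filter fun d => M.vt d = v).card := card_biUnion_le
    _ ≤ ∑ _v ∈ B, 7 := sum_le_sum fun v _ => h1 v
    _ = 7 * B.card := by rw [sum_const, smul_eq_mul, mul_comm]

/-- **ATYP.** -/
theorem atyp (h1 : StmtStrip) (h2 : StmtHSmall) : StmtAtyp := by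
  intro K h V D E F _ _ _ _ L f M dE dW dU dN host lm
  obtain ⟨-, -, -, -, -, strip⟩ := h1 K h V D E F L f M dE dW dU dN host lm
  obtain ⟨-, hlink⟩ := h2 K h V D E F L f M dE dW dU dN host lm
  haveI : NeZero (3 * 2 ^ K) := ⟨by positivity⟩
  obtain ⟨lo, hlo⟩ : ∃ lo : ℕ, lo = 16 * K + 60 := ⟨_, rfl⟩
  have hloZ : (16 * (K : ℤ) + 60) = lo := by rw [hlo]; push_cast; ring
  have hhiZ : ((h : ℤ) - 16 * K - 60) = h - lo := by rw [hlo]; push_cast; ring
  obtain ⟨B, hB⟩ : ∃ B : Finset V, B = univ.filter fun v => L.row v ≤ lo ∨ (h : ℤ) - lo ≤ L.row v :=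
    ⟨_, rfl⟩
  have memB : ∀ v, v ∈ B ↔ (L.row v ≤ lo ∨ (h : ℤ) - lo ≤ L.row v) := by
    intro v
    rw [hB, mem_filter]
    exact ⟨fun hh => hh.2, fun hh => ⟨mem_univ _, hh⟩⟩
  -- the size of B
  have cardB : B.card ≤ 2 * (3 * 2 ^ K) + 2 * ((lo + 1) * (3 * 2 ^ K)) := by
    have hsub : B ⊆ (univ.filter fun v => L.row v < 0 ∨ (h : ℤ) < L.row v) ∪
        ((range (lo + 1) ×ˢ (univ : Finset (ZMod (3 * 2 ^ K)))).image (fun p => f p.1 p.2) ∪
        (range (lo + 1) ×ˢ (univ : Finset (ZMod (3 * 2 ^ K)))).image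
          (fun p => f ((h : ℤ) - p.1) p.2)) := by
      intro v hv
      rw [memB] at hv
      rw [mem_union, mem_union]
      by_cases hcap : L.row v < 0 ∨ (h : ℤ) < L.row v
      · exact Or.inl (mem_filter.2 ⟨mem_univ _, hcap⟩)
      · right
        rw [not_or, not_lt, not_lt] at hcap
        obtain ⟨x, hx⟩ := host.flat.surj v hcap.1 hcap.2
        rcases hv with hv | hv
        · left
          refine mem_image.2 ⟨((L.row v).toNat, x), ?_, ?_⟩
          · rw [mem_product, mem_range]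
            exact ⟨by omega, mem_univ _⟩
          · have : (((L.row v).toNat : ℕ) : ℤ) = L.row v := by omega
            change f (((L.row v).toNat : ℕ) : ℤ) x = v
            rw [this]
            exact hx
        · right
          refine mem_image.2 ⟨((h - L.row v).toNat, x), ?_, ?_⟩
          · rw [mem_product, mem_range]
            exact ⟨by omega, mem_univ _⟩
          · have : (h : ℤ) - (((h - L.row v).toNat : ℕ) : ℤ) = L.row v := by omega
            change f ((h : ℤ) - (((h - L.row v).toNat : ℕ) : ℤ)) x = v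
            rw [this]
            exact hx
    have hc : (range (lo + 1) ×ˢ (univ : Finset (ZMod (3 * 2 ^ K)))).card =
        (lo + 1) * (3 * 2 ^ K) := by
      rw [card_product, card_range, card_univ, ZMod.card]
    calc B.card ≤ _ := card_le_card hsub
      _ ≤ _ := card_union_le _ _
      _ ≤ 2 * (3 * 2 ^ K) + ((lo + 1) * (3 * 2 ^ K) + (lo + 1) * (3 * 2 ^ K)) := by
        refine Nat.add_le_add host.cap ((card_union_le _ _).trans (Nat.add_le_add ?_ ?_))
        · exact card_image_le.trans hc.le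
        · exact card_image_le.trans hc.le
      _ = _ := by ring
  -- leaves
  have leaf : ∀ d, T4 M d → (∃ e, M.fc e = M.fc d ∧ ¬ ((lo : ℤ) ≤ L.row (M.vt e) ∧
      L.row (M.vt e) ≤ (h : ℤ) - lo)) → M.vt d ∈ B := by
    rintro d hd ⟨e, he, hne⟩
    obtain ⟨y, -, -, -, hy⟩ := (strip d).1 hd
    rw [memB]
    have r1 := hy.1 e he
    have r2 := hy.1 d rfl
    by_cases hc : (lo : ℤ) ≤ L.row (M.vt e)
    · have : ¬ (L.row (M.vt e) ≤ (h : ℤ) - lo) := fun hh => hne ⟨hc, hh⟩
      right
      omega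
    · left
      omega
  obtain ⟨DB, hDB⟩ : ∃ DB : Finset D, DB = univ.filter fun d => M.vt d ∈ B := ⟨_, rfl⟩
  have cardDB : DB.card ≤ 7 * B.card := by
    rw [hDB]
    exact dart_le M hlink B
  have memDB : ∀ d, M.vt d ∈ B → d ∈ DB := by
    intro d hd
    rw [hDB]
    exact mem_filter.2 ⟨mem_univ _, hd⟩
  obtain ⟨LB, hLB⟩ : ∃ LB : Finset {d : D // T4 M d}, LB = DB.subtype (fun d => T4 M d) := ⟨_, rfl⟩
  have cardLB : LB.card ≤ DB.card := by
    rw [hLB, card_subtype]
    exact card_filter_le _ _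
  have memLB : ∀ d : {d : D // T4 M d}, M.vt d.1 ∈ B → d ∈ LB := by
    intro d hd
    rw [hLB, mem_subtype]
    exact memDB _ hd
  let cen : {d : D // T4 M d} → {q : F // IsSq M q} := fun d => ⟨M.fc d.1, d.1, rfl, d.2⟩
  have hsub : ∀ x : GV M, ¬ Typ M L.row (16 * K + 60) (h - 16 * K - 60) x →
      x ∈ (B.image fun v => (Sum.inl (Sum.inl v) : GV M)) ∪
        ((LB.image fun d => (Sum.inl (Sum.inr (cen d)) : GV M)) ∪
          LB.image fun d => (Sum.inr d : GV M)) := by
    intro x hx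
    rw [hloZ, hhiZ] at hx
    rw [mem_union, mem_union]
    rcases x with (v | q) | d
    · left
      refine mem_image.2 ⟨v, ?_, rfl⟩
      rw [memB]
      have hx' : ¬ ((lo : ℤ) ≤ L.row v ∧ L.row v ≤ (h : ℤ) - lo) := hx
      by_contra hcon
      exact hx' (by omega)
    · right
      left
      have hx' : ¬ ∀ e, M.fc e = q.1 → (lo : ℤ) ≤ L.row (M.vt e) ∧
        L.row (M.vt e) ≤ (h : ℤ) - lo := hx
      push Not at hx'
      obtain ⟨e, he, hne⟩ := hx'
      obtain ⟨q, d, hd, hd4⟩ := q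
      refine mem_image.2 ⟨⟨d, hd4⟩, memLB _ (leaf d hd4 ⟨e, ?_, ?_⟩), ?_⟩
      · rw [hd]
        exact he
      · rintro ⟨ha, hb⟩
        exact absurd hb (not_le.2 (hne ha))
      · exact congrArg (fun z => (Sum.inl (Sum.inr z) : GV M)) (Subtype.ext hd)
    · right
      right
      have hx' : ¬ ∀ e, M.fc e = M.fc d.1 → (lo : ℤ) ≤ L.row (M.vt e) ∧
        L.row (M.vt e) ≤ (h : ℤ) - lo := hx
      push Not at hx'
      obtain ⟨e, he, hne⟩ := hx'
      refine mem_image.2 ⟨d, memLB _ (leaf d.1 d.2 ⟨e, he, ?_⟩), rfl⟩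
      rintro ⟨ha, hb⟩
      exact absurd hb (not_le.2 (hne ha))
  refine (card_filter_le_of _ _ hsub).trans ?_
  have hN : 15 * (2 * (3 * 2 ^ K) + 2 * ((lo + 1) * (3 * 2 ^ K))) =
      30 * (3 * 2 ^ K) * (16 * K + 62) := by
    rw [hlo]
    ring
  rw [← hN]
  calc _ ≤ _ := card_union_le _ _
    _ ≤ B.card + (LB.card + LB.card) :=
      Nat.add_le_add card_image_le ((card_union_le _ _).trans
        (Nat.add_le_add card_image_le card_image_le))
    _ ≤ _ := by omega

end Pool.Agent.Helper76.UB
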