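import Pool.Agent.Helper74.UB.Goals4

/-!
# UB, HT: the columns without protected vertices burn
-/

namespace Pool.Agent.Helper76.UB

open Finset Equiv Helper28.VF Pool.Agent.Helper74.UB
open scoped Classical

/-- The path of a column. -/
noncomputable def pth {V F : Type} (I : F → Prop) (h : ℕ) {N : ℕ} (f : ℤ → ZMod N → V)
    (w₁ w₂ : V) (x : ZMod N) (i : ℕ) : VC V I :=
  if i = 0 then Sum.inl w₁ else if i ≤ h + 1 then Sum.inl (f ((h : ℤ) + 1 - i) x) else Sum.inl w₂

theorem pth_mem {V F : Type} (I : F → Prop) (h : ℕ) {N : ℕ} (f : ℤ → ZMod N → V)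
    (w₁ w₂ : V) (x : ZMod N) (i : ℕ) : pth I h f w₁ w₂ x i ∈ colX I h f w₁ w₂ x := by
  unfold pth colX
  by_cases h0 : i = 0
  · rw [if_pos h0]
    exact mem_insert_self _ _
  · rw [if_neg h0]
    by_cases h1 : i ≤ h + 1
    · rw [if_pos h1]
      refine mem_insert_of_mem (mem_insert_of_mem (mem_image.2 ⟨(h : ℤ) + 1 - i, ?_, rfl⟩))
      rw [Finset.mem_Icc]
      constructor
      · omega
      · omega
    · rw [if_neg h1]
      exact mem_insert_of_mem (mem_insert_self _ _)

theorem mem_pth {V F : Type} (I : F → Prop) (h : ℕ) {N : ℕ} (f : ℤ → ZMod N → V)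
    (w₁ w₂ : V) (x : ZMod N) (u : VC V I) (hu : u ∈ colX I h f w₁ w₂ x) :
    ∃ i ≤ h + 2, u = pth I h f w₁ w₂ x i := by
  unfold colX at hu
  rcases mem_insert.1 hu with hu | hu
  · exact ⟨0, by omega, by unfold pth; rw [if_pos rfl]; exact hu⟩
  · rcases mem_insert.1 hu with hu | hu
    · refine ⟨h + 2, le_refl _, ?_⟩
      unfold pth
      rw [if_neg (by omega), if_neg (by omega)]
      exact hu
    · obtain ⟨r, hr, hru⟩ := mem_image.1 hu
      rw [Finset.mem_Icc] at hr
      refine ⟨(h + 1 - r).toNat, by omega, ?_⟩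
      unfold pth
      rw [if_neg (by omega), if_pos (by omega), ← hru]
      have : ((h : ℤ) + 1 - ((h + 1 - r).toNat : ℤ)) = r := by omega
      rw [this]

theorem pth_ad (h3 : StmtLayAd) (h4 : StmtConeAd) (K h : ℕ) (V D E F E' F' : Type) [Fintype V]
    [Fintype D] [Fintype E] [Fintype F] [Fintype E'] [Fintype F'] (L : Lay V)
    (f : ℤ → ZMod (3 * 2 ^ K) → V) (M : PM D V E F)
    (dE dW : V → D) (dU dN : V → V → D) (I : F → Prop) (M' : PM (DC M I) (VC V I) E' F')
    (host : Host K h L f) (lm : LM L M dE dW dU dN) (cone : IsCone M I M')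
    (w₁ w₂ : V) (x : ZMod (3 * 2 ^ K)) (e1 : L.up (f h x) w₁) (e2 : L.up w₂ (f 0 x))
    (i : ℕ) (hi : i < h + 2) :
    Ad M' (pth I h f w₁ w₂ x i) (pth I h f w₁ w₂ x (i + 1)) ∧
      Ad M' (pth I h f w₁ w₂ x (i + 1)) (pth I h f w₁ w₂ x i) := by
  have key : ∀ u v : V, L.up u v →
      Ad M' (Sum.inl u) (Sum.inl v) ∧ Ad M' (Sum.inl v) (Sum.inl u) := by
    intro u v huv
    have a1 := (h4 D V E F E' F' M I M' cone).1
    have a2 := (h3 V D E F L M dE dW dU dN host.ax lm).1
    refine ⟨(a1 _ _).2 ((a2 _ _).2 (Or.inr (Or.inr (Or.inl huv)))),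
      (a1 _ _).2 ((a2 _ _).2 (Or.inr (Or.inr (Or.inr huv))))⟩
  have up : ∀ r : ℤ, 0 ≤ r → r < h → L.up (f r x) (f (r + 1) x) := by
    intro r r0 r1
    obtain ⟨n, rfl⟩ := Int.eq_ofNat_of_zero_le r0
    by_cases hr : Even n
    · exact (host.flat.upS n x _ (by omega) (by omega) hr).2 rfl
    · exact (host.flat.upT n x _ (by omega) (by omega) hr).2 (Or.inl rfl)
  by_cases h0 : i = 0
  · subst h0
    have q1 : pth I h f w₁ w₂ x 0 = Sum.inl w₁ := by unfold pth; rw [if_pos rfl]
    have q2 : pth I h f w₁ w₂ x (0 + 1) = Sum.inl (f h x) := by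
      unfold pth
      rw [if_neg (by omega), if_pos (by omega)]
      have : ((h : ℤ) + 1 - ((0 + 1 : ℕ) : ℤ)) = h := by push_cast; ring
      rw [this]
    rw [q1, q2]
    exact ⟨(key _ _ e1).2, (key _ _ e1).1⟩
  · by_cases h1 : i = h + 1
    · subst h1
      have q1 : pth I h f w₁ w₂ x (h + 1) = Sum.inl (f 0 x) := by
        unfold pth
        rw [if_neg (by omega), if_pos (by omega)]
        have : ((h : ℤ) + 1 - ((h + 1 : ℕ) : ℤ)) = 0 := by push_cast; ring
        rw [this]
      have q2 : pth I h f w₁ w₂ x (h + 1 + 1) = Sum.inl w₂ := by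
        unfold pth
        rw [if_neg (by omega), if_neg (by omega)]
      rw [q1, q2]
      exact ⟨(key _ _ e2).2, (key _ _ e2).1⟩
    · have q1 : pth I h f w₁ w₂ x i = Sum.inl (f ((h : ℤ) - i + 1) x) := by
        unfold pth
        rw [if_neg (by omega), if_pos (by omega)]
        have : ((h : ℤ) + 1 - i) = h - i + 1 := by ring
        rw [this]
      have q2 : pth I h f w₁ w₂ x (i + 1) = Sum.inl (f ((h : ℤ) - i) x) := by
        unfold pth
        rw [if_neg (by omega), if_pos (by omega)]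
        have : ((h : ℤ) + 1 - ((i + 1 : ℕ) : ℤ)) = h - i := by push_cast; ring
        rw [this]
      rw [q1, q2]
      have := key _ _ (up ((h : ℤ) - i) (by omega) (by omega))
      exact ⟨this.2, this.1⟩

theorem mono_le {D V E F : Type} [Fintype D] [Fintype V] [Fintype E] [Fintype F] {M : PM D V E F}
    {c : ℕ} {v₀ : V} {A Q : ℕ → Finset V} (hf : Fire M c v₀ A Q) {s t : ℕ} (hst : s ≤ t) :
    A s ⊆ A t := by
  induction t, hst using Nat.le_induction with
  | base => exact Finset.Subset.refl _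
  | succ t _ ih => exact ih.trans (hf.mono t)

/-- **HT.** -/
theorem ht (h1 : StmtSit) (h2 : StmtEndT) (h3 : StmtLayAd) (h4 : StmtConeAd) : StmtHT := by
  intro K h V D E F E' F' _ _ _ _ _ _ L f M dE dW dU dN I M' y0 y1 c v₀ A Q hB hy0 hy1 w₁ w₂ x
    e1 e2 hdis u hu
  have fire := hB.fire
  obtain ⟨T, hT⟩ : ∃ T, T = 2 * h + 8 * K + 20 := ⟨_, rfl⟩
  have hTle : T + (h + 2) ≤ 3 * h + 8 * K + 23 := by omega
  have ad := pth_ad h3 h4 K h V D E F E' F' L f M dE dW dU dN I M' hB.host hB.lm hB.cone w₁ w₂ x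
    e1 e2
  -- one of the ends burns
  have hend : Sum.inl w₁ ∈ A T ∨ Sum.inl w₂ ∈ A T := by
    by_contra hcon
    rw [not_or] at hcon
    obtain ⟨R₁, R₂, hS⟩ := h1 K h V D E F E' F' L f M dE dW dU dN I M' y0 y1 c v₀ A Q hB w₁ w₂ x
      e1 e2 T (fun s hs => hdis s (by omega)) (fun s hs hm => hcon.1 (mono_le fire hs hm))
      (fun s hs hm => hcon.2 (mono_le fire hs hm))
    exact h2 K h V D E F E' F' L f M dE dW dU dN I M' y0 y1 c v₀ A Q _ T R₁ R₂ hS hy0 hy1 hT
  -- spreading
  have spr : ∀ s ≤ 3 * h + 8 * K + 23, ∀ i j, Ad M' (pth I h f w₁ w₂ x i) (pth I h f w₁ w₂ x j) →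
      pth I h f w₁ w₂ x i ∈ A s → pth I h f w₁ w₂ x j ∈ A (s + 1) := by
    intro s hs i j hij hi
    rcases fire.spread s _ hi _ hij with hh | hh
    · exact hh
    · exact absurd (pth_mem I h f w₁ w₂ x j) (Finset.disjoint_left.1 (hdis s hs) hh)
  obtain ⟨i, hi, rfl⟩ := mem_pth I h f w₁ w₂ x u hu
  rcases hend with hw | hw
  · have fw : ∀ i, i ≤ h + 2 → pth I h f w₁ w₂ x i ∈ A (T + i) := by
      intro i
      induction i with
      | zero =>
        intro _
        have q1 : pth I h f w₁ w₂ x 0 = Sum.inl w₁ := by unfold pth; rw [if_pos rfl]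
        rw [q1]
        exact hw
      | succ i ih =>
        intro hi
        exact spr (T + i) (by omega) i (i + 1) (ad i (by omega)).1 (ih (by omega))
    exact mono_le fire (by omega) (fw i hi)
  · have bw : ∀ j, j ≤ h + 2 → pth I h f w₁ w₂ x (h + 2 - j) ∈ A (T + j) := by
      intro j
      induction j with
      | zero =>
        intro _
        have q1 : pth I h f w₁ w₂ x (h + 2 - 0) = Sum.inl w₂ := by
          unfold pth
          rw [if_neg (by omega), if_neg (by omega)]
        rw [q1]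
        exact hw
      | succ j ih =>
        intro hj
        have := (ad (h + 2 - (j + 1)) (by omega)).2
        have q : h + 2 - (j + 1) + 1 = h + 2 - j := by omega
        rw [q] at this
        exact spr (T + j) (by omega) _ _ this (ih (by omega))
    have q : i = h + 2 - (h + 2 - i) := by omega
    rw [q]
    exact mono_le fire (by omega) (bw (h + 2 - i) (by omega))

end Pool.Agent.Helper76.UB
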