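import Pool.Agent.Helper76.UB.Rot

/-!
# UB, PLANG: the gadget graph is planar
-/

namespace Pool.Agent.Helper76.UB

open Finset Equiv Helper28.VF Pool.Agent.Helper74.UB
open scoped Classical

section
variable {D V E F : Type} [Fintype D] [Fintype V] [Fintype E] [Fintype F]

theorem vt_ph (M : PM D V E F) (d : D) : M.vt (ph M d) = tg M d := by
  unfold ph tg
  exact (M.vt_iff _ _).2 (Perm.SameCycle.symm (Perm.sameCycle_apply_right.2
    (Perm.SameCycle.refl _ _)))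

theorem fc_ph (M : PM D V E F) (d : D) : M.fc (ph M d) = M.fc d := by
  have h1 : ph M d = (M.σ * M.α) d := rfl
  rw [h1]
  exact (M.fc_iff _ _).2 (Perm.SameCycle.symm (Perm.sameCycle_apply_right.2
    (Perm.SameCycle.refl _ _)))

theorem T3_fc (M : PM D V E F) {d e : D} (h : M.fc d = M.fc e) (hd : T3 M d) : T3 M e := by
  obtain ⟨n, hn⟩ := (M.fc_iff d e).1 h
  unfold T3 at *
  have e1 : ∀ x, ph M (ph M (ph M x)) = ((M.σ * M.α) ^ (3 : ℤ)) x := fun x => rfl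
  rw [e1] at *
  rw [← hn, ← Perm.mul_apply, ← zpow_add, add_comm, zpow_add, Perm.mul_apply, hd]

theorem T4_fc (M : PM D V E F) {d e : D} (h : M.fc d = M.fc e) (hd : T4 M d) : T4 M e := by
  refine ⟨?_, fun h3 => hd.2 (T3_fc M h.symm h3)⟩
  obtain ⟨n, hn⟩ := (M.fc_iff d e).1 h
  have h4 := hd.1
  have e1 : ∀ x, ph M (ph M (ph M (ph M x))) = ((M.σ * M.α) ^ (4 : ℤ)) x := fun x => rfl
  rw [e1] at *
  rw [← hn, ← Perm.mul_apply, ← zpow_add, add_comm, zpow_add, Perm.mul_apply, h4]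

/-- Renaming the vertices. -/
noncomputable def ren {V' : Type} [Fintype V'] (M : PM D V E F) (γ : V ≃ V') : PM D V' E F where
  σ := M.σ
  α := M.α
  vt := fun d => γ (M.vt d)
  ed := M.ed
  fc := M.fc
  α_inv := M.α_inv
  α_ne := M.α_ne
  vt_iff := fun d e => by rw [γ.apply_eq_iff_eq]; exact M.vt_iff d e
  ed_iff := M.ed_iff
  fc_iff := M.fc_iff
  vt_surj := γ.surjective.comp M.vt_surj
  ed_surj := M.ed_surj
  fc_surj := M.fc_surj
  conn := M.conn
  euler := by rw [← Fintype.card_congr γ]; exact M.euler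

theorem tg_ren {V' : Type} [Fintype V'] (M : PM D V E F) (γ : V ≃ V') (d : D) :
    tg (ren M γ) d = γ (tg M d) := rfl

theorem ad_ren {V' : Type} [Fintype V'] (M : PM D V E F) (γ : V ≃ V') (u v : V)
    (h : Ad M u v) : Ad (ren M γ) (γ u) (γ v) := by
  obtain ⟨d, rfl, rfl⟩ := h
  exact ⟨d, rfl, rfl⟩

theorem ad_symm (M : PM D V E F) {u v : V} (h : Ad M u v) : Ad M v u := by
  obtain ⟨d, rfl, rfl⟩ := h
  refine ⟨M.α d, rfl, ?_⟩
  unfold tg
  rw [M.α_inv]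

end

/-- **PLANG.** -/
theorem plang (h1 : StmtCone) (h2 : StmtConeAd) (h3 : StmtConeSmall) (h4 : StmtConeSim) :
    StmtPlanG := by
  intro D V E F _ _ _ _ M hS
  have sq_iff : ∀ d, IsSq M (M.fc d) ↔ T4 M d := by
    intro d
    constructor
    · rintro ⟨e, he, h⟩
      exact T4_fc M he h
    · intro h
      exact ⟨d, rfl, h⟩
  obtain ⟨E₁, F₁, _, _, M₁, C₁⟩ := h1 D V E F M (IsSq M)
  obtain ⟨S₁, -, -, S3⟩ := h3 D V E F E₁ F₁ M (IsSq M) M₁ C₁ hS (fun d => (sq_iff d).1)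
  obtain ⟨I₂, hI₂⟩ : ∃ I₂ : F₁ → Prop, ∀ q, I₂ q ↔ ∃ d, T4 M d ∧ M₁.fc (Sum.inl d) = q :=
    ⟨_, fun q => Iff.rfl⟩
  obtain ⟨E₂, F₂, _, _, M₂, C₂⟩ := h1 _ _ E₁ F₁ M₁ I₂
  have aph : ∀ d, IsSq M (M.fc d) → IsSq M (M.fc (ph M d)) := by
    intro d hd
    rw [fc_ph]
    exact hd
  have sim := h4 _ _ E₁ F₁ E₂ F₂ M₁ I₂ M₂ C₂ S₁.noloop S₁.simple (by
    intro x y hx hxy hv
    obtain ⟨d, hd, hdx⟩ := (hI₂ _).1 hx
    have hsq := (sq_iff d).2 hd
    have hfi := C₁.fi d hsq (aph d hsq)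
    have q1 := (hfi x).1 hdx.symm
    have q2 := (hfi y).1 (hxy.symm.trans hdx.symm)
    have hne : M.vt d ≠ M.vt (ph M d) := by
      rw [vt_ph]
      exact fun h => hS.noloop d h.symm
    rcases q1 with rfl | rfl | rfl <;> rcases q2 with rfl | rfl | rfl
    · rfl
    · rw [C₁.vl, C₁.vf] at hv
      exact absurd (Sum.inl.inj hv) hne
    · rw [C₁.vl, C₁.vtr] at hv
      exact absurd hv Sum.inl_ne_inr
    · rw [C₁.vl, C₁.vf] at hv
      exact absurd (Sum.inl.inj hv).symm hne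
    · rfl
    · rw [C₁.vf, C₁.vtr] at hv
      exact absurd hv Sum.inl_ne_inr
    · rw [C₁.vl, C₁.vtr] at hv
      exact absurd hv Sum.inr_ne_inl
    · rw [C₁.vf, C₁.vtr] at hv
      exact absurd hv Sum.inr_ne_inl
    · rfl)
  -- the bijection
  let b : {d : D // T4 M d} → {q : F₁ // I₂ q} := fun d => ⟨M₁.fc (Sum.inl d.1),
    (hI₂ _).2 ⟨d.1, d.2, rfl⟩⟩
  have bbij : Function.Bijective b := by
    constructor
    · intro d e hde
      have hfc : M₁.fc (Sum.inl d.1) = M₁.fc (Sum.inl e.1) := congrArg Subtype.val hde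
      have hsq := (sq_iff d.1).2 d.2
      rcases (C₁.fi d.1 hsq (aph d.1 hsq) (Sum.inl e.1)).1 hfc.symm with h | h | h
      · exact (Subtype.ext (Sum.inl.inj h)).symm
      · exact absurd h Sum.inl_ne_inr
      · exact absurd h Sum.inl_ne_inr
    · rintro ⟨q, hq⟩
      obtain ⟨d, hd, rfl⟩ := (hI₂ q).1 hq
      exact ⟨⟨d, hd⟩, rfl⟩
  let β : {d : D // T4 M d} ≃ {q : F₁ // I₂ q} := Equiv.ofBijective b bbij
  let γ : VC (VC V (IsSq M)) I₂ ≃ GV M := Equiv.sumCongr (Equiv.refl _) β.symm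
  have γl : ∀ u, γ (Sum.inl u) = Sum.inl u := fun u => rfl
  have γr : ∀ d, γ (Sum.inr (b d)) = Sum.inr d := by
    intro d
    change Sum.inr (β.symm (β d)) = _
    rw [Equiv.symm_apply_apply]
  obtain ⟨H, hH, hc, σ, hσ, hE⟩ := rot _ _ _ _ (ren M₂ γ)
    (by
      intro d h
      rw [tg_ren] at h
      exact sim.1 d (γ.injective h))
    (by
      intro d e h h'
      rw [tg_ren, tg_ren] at h'
      exact sim.2 d e (γ.injective h) (γ.injective h'))
  refine ⟨H, ?_, hc, σ, hσ, hE⟩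
  have A1 := h2 D V E F E₁ F₁ M (IsSq M) M₁ C₁
  have A2 := h2 _ _ E₁ F₁ E₂ F₂ M₁ I₂ M₂ C₂
  have key : ∀ u v : GV M, grel M u v → Ad (ren M₂ γ) u v := by
    intro u v huv
    rcases u with (u | q) | d
    · rcases v with (v | q') | d'
      · rw [← γl, ← γl]
        exact ad_ren M₂ γ _ _ ((A2.1 _ _).2 ((A1.1 u v).2 huv))
      · exact huv.elim
      · exact huv.elim
    · rcases v with (v | q') | d'
      · exact huv.elim
      · exact huv.elim
      · exact huv.elim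
    · rcases v with (v | q') | d'
      · rw [← γl, ← γr]
        refine ad_ren M₂ γ _ _ ((A2.2.1 _ _).1.2 ⟨Sum.inl d.1, rfl, ?_⟩)
        rw [C₁.vl]
        exact congrArg Sum.inl huv
      · rw [← γl, ← γr]
        have hsq := (sq_iff d.1).2 d.2
        refine ad_ren M₂ γ _ _ ((A2.2.1 _ _).1.2 ⟨Sum.inr (⟨d.1, hsq⟩, true), ?_, ?_⟩)
        · exact (C₁.fi d.1 hsq (aph d.1 hsq) _).2 (Or.inr (Or.inr rfl))
        · rw [C₁.vtr]
          exact congrArg Sum.inr (Subtype.ext huv)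
      · exact huv.elim
  intro u v huv
  rw [hH]
  have huv' : u ≠ v ∧ (grel M u v ∨ grel M v u) := huv
  rcases huv'.2 with h | h
  · exact key u v h
  · exact ad_symm _ (key v u h)

end Pool.Agent.Helper76.UB
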