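import Pool.Agent.Helper74.UB.Goals5

/-!
# UB, REDB: reduction, case (B)
-/

namespace Pool.Agent.Helper76.UB

open Finset Equiv Helper28.VF Pool.Agent.Helper74.UB
open Pool.Agent.Helper34.FF (burn prot Legal saved sn rho)
open scoped Classical

section
variable {D V E F : Type} [Fintype D] [Fintype V] [Fintype E] [Fintype F]

theorem T3_fc' (M : PM D V E F) {d e : D} (h : M.fc d = M.fc e) (hd : T3 M d) : T3 M e := by
  obtain ⟨n, hn⟩ := (M.fc_iff d e).1 h
  unfold T3 at *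
  have e1 : ∀ x, ph M (ph M (ph M x)) = ((M.σ * M.α) ^ (3 : ℤ)) x := fun x => rfl
  rw [e1] at *
  rw [← hn, ← Perm.mul_apply, ← zpow_add, add_comm, zpow_add, Perm.mul_apply, hd]

theorem T4_fc' (M : PM D V E F) {d e : D} (h : M.fc d = M.fc e) (hd : T4 M d) : T4 M e := by
  refine ⟨?_, fun h3 => hd.2 (T3_fc' M h.symm h3)⟩
  obtain ⟨n, hn⟩ := (M.fc_iff d e).1 h
  have h4 := hd.1
  have e1 : ∀ x, ph M (ph M (ph M (ph M x))) = ((M.σ * M.α) ^ (4 : ℤ)) x := fun x => rfl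
  rw [e1] at *
  rw [← hn, ← Perm.mul_apply, ← zpow_add, add_comm, zpow_add, Perm.mul_apply, h4]

theorem adj_hh (M : PM D V E F) (hl : ∀ d, tg M d ≠ M.vt d) {u v : V} (h : Ad M u v) :
    (GS M).Adj (Sum.inl (Sum.inl u)) (Sum.inl (Sum.inl v)) := by
  refine ⟨?_, Or.inl h⟩
  intro huv
  obtain ⟨d, h1, h2⟩ := h
  have : u = v := Sum.inl.inj (Sum.inl.inj huv)
  exact hl d (by rw [h1, h2, this])

theorem adj_cl (M : PM D V E F) (q : {q : F // IsSq M q}) (d : {d : D // T4 M d})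
    (h : M.fc d.1 = q.1) : (GS M).Adj (Sum.inl (Sum.inr q)) (Sum.inr d) :=
  ⟨fun h' => Sum.inl_ne_inr h', Or.inr h⟩

theorem adj_lh (M : PM D V E F) (d : {d : D // T4 M d}) :
    (GS M).Adj (Sum.inr d) (Sum.inl (Sum.inl (M.vt d.1))) :=
  ⟨fun h' => Sum.inr_ne_inl h', Or.inl rfl⟩

/-- The names of the gadget vertices in the cone. -/
def tau (M : PM D V E F) (I : F → Prop) (q₀ : {q : F // I q}) : GV M → VC V I
  | Sum.inl (Sum.inl u) => Sum.inl u
  | Sum.inl (Sum.inr _) => Sum.inr q₀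
  | Sum.inr d => Sum.inl (M.vt d.1)

/-- The protected vertices in the cone. -/
def RBp (M : PM D V E F) (I : F → Prop) (q₁ : F) (r : ℕ) (σ : ℕ → Finset (GV M))
    (s : ℕ) (x : VC V I) : Prop :=
  ∃ u, x = Sum.inl u ∧ (Sum.inl (Sum.inl u) ∈ prot σ (s + 2 + r) ∨
    ∃ d : {d : D // T4 M d}, M.fc d.1 = q₁ ∧ M.vt d.1 = u ∧ Sum.inr d ∈ prot σ (1 + r))

/-- The protected sets in the cone. -/
noncomputable def RB (M : PM D V E F) (I : F → Prop) (q₁ : F) (r : ℕ) (σ : ℕ → Finset (GV M))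
    (s : ℕ) : Finset (VC V I) := univ.filter fun x => RBp M I q₁ r σ s x

theorem mem_RB (M : PM D V E F) (I : F → Prop) (q₁ : F) (r : ℕ) (σ : ℕ → Finset (GV M))
    (s : ℕ) (x : VC V I) : x ∈ RB M I q₁ r σ s ↔ ∃ u, x = Sum.inl u ∧
      (Sum.inl (Sum.inl u) ∈ prot σ (s + 2 + r) ∨
      ∃ d : {d : D // T4 M d}, M.fc d.1 = q₁ ∧ M.vt d.1 = u ∧ Sum.inr d ∈ prot σ (1 + r)) := by
  unfold RB
  constructor
  · intro h
    exact (Finset.mem_filter.1 h).2
  · intro h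
    exact Finset.mem_filter.2 ⟨mem_univ _, h⟩

theorem mem_fA_succ (M : PM D V E F) (R : ℕ → Finset V) (v₀ : V) (s : ℕ) (x : V) :
    x ∈ fA M R v₀ (s + 1) ↔ x ∈ fA M R v₀ s ∨ (x ∉ R s ∧ ∃ u ∈ fA M R v₀ s, Ad M u x) := by
  have : fA M R v₀ (s + 1) = fA M R v₀ s ∪ univ.filter fun v => v ∉ R s ∧
    ∃ u ∈ fA M R v₀ s, Ad M u v := rfl
  rw [this, mem_union, mem_filter]
  exact ⟨fun h => h.imp id (fun h => h.2), fun h => h.imp id (fun h => ⟨mem_univ _, h⟩)⟩

theorem mem_fQ (M : PM D V E F) (R : ℕ → Finset V) (v₀ : V) (s : ℕ) (x : V) :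
    x ∈ fQ M R v₀ s ↔ x ∈ R s ∧ ∃ u ∈ fA M R v₀ s, Ad M u x := by
  unfold fQ
  rw [mem_filter]

end

/-- **REDB.** -/
theorem redb (h1 : StmtPB) (h2 : StmtMkF) (h3 : StmtConeAd) (h4 : StmtLayAd) (h6 : StmtSq) :
    StmtRedB := by
  intro K h V D E F E' F' _ _ _ _ _ _ L f M dE dW dU dN I M' host lm cone y j hI hy0 hyh hye v₀ σ
    hL q r hq hr hburn hr1
  obtain ⟨pb1, pb2, pb3, pb4⟩ := h1 (GV M) (GS M) v₀ σ hL
  obtain ⟨A1, A2, A3, -⟩ := h3 D V E F E' F' M I M' cone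
  obtain ⟨-, hl, -⟩ := h4 V D E F L M dE dW dU dN host.ax lm
  obtain ⟨sq4, sqf⟩ := h6 K h V D E F L f M dE dW dU dN host lm y j hy0 hyh hye
  obtain ⟨q₀, hq₀⟩ : ∃ q₀ : {q : F // I q}, q₀.1 = q.1 := ⟨⟨q.1, (hI _).2 hq⟩, rfl⟩
  have hqq : ∀ q' : {q : F // I q}, q' = q₀ := by
    intro q'
    apply Subtype.ext
    rw [hq₀, hq]
    exact (hI _).1 q'.2
  obtain ⟨R, hR⟩ : ∃ R : ℕ → Finset (VC V I), R = RB M I q.1 r σ := ⟨_, rfl⟩
  have memR : ∀ s x, x ∈ R s ↔ ∃ u, x = Sum.inl u ∧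
      (Sum.inl (Sum.inl u) ∈ prot σ (s + 2 + r) ∨
      ∃ d : {d : D // T4 M d}, M.fc d.1 = q.1 ∧ M.vt d.1 = u ∧ Sum.inr d ∈ prot σ (1 + r)) := by
    intro s x
    rw [hR]
    exact mem_RB M I q.1 r σ s x
  have pm : ∀ s t, s ≤ t → prot σ s ⊆ prot σ t := fun s t hst => (pb2 s t hst).1
  have bm : ∀ s t, s ≤ t → burn (GS M) v₀ σ s ⊆ burn (GS M) v₀ σ t := fun s t hst => (pb2 s t hst).2
  have monoR : ∀ s t, s ≤ t → R s ⊆ R t := by
    intro s t hst x hx
    rw [memR] at *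
    obtain ⟨u, hu, h | h⟩ := hx
    · exact ⟨u, hu, Or.inl (pm _ _ (by omega) h)⟩
    · exact ⟨u, hu, Or.inr h⟩
  have cardR : ∀ s, (R s).card ≤ 1 + r + s + 1 := by
    intro s
    have hsub : R s ⊆ (prot σ (s + 2 + r)).image (tau M I q₀) := by
      intro x hx
      rw [memR] at hx
      obtain ⟨u, rfl, h | ⟨d, -, hd2, hd3⟩⟩ := hx
      · exact mem_image.2 ⟨_, h, rfl⟩
      · refine mem_image.2 ⟨Sum.inr d, pm _ _ (by omega) hd3, ?_⟩
        change Sum.inl (M.vt d.1) = _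
        rw [hd2]
    calc (R s).card ≤ ((prot σ (s + 2 + r)).image (tau M I q₀)).card := card_le_card hsub
      _ ≤ (prot σ (s + 2 + r)).card := card_image_le
      _ ≤ s + 2 + r := pb3 _
      _ = 1 + r + s + 1 := by ring
  -- the fire
  obtain ⟨A, hA⟩ : ∃ A : ℕ → Finset (VC V I), A = fA M' R (Sum.inr q₀) := ⟨_, rfl⟩
  have A0 : ∀ x, x ∈ A 0 ↔ x = Sum.inr q₀ := by
    intro x
    rw [hA]
    exact mem_singleton
  have As : ∀ s x, x ∈ A (s + 1) ↔ x ∈ A s ∨ (x ∉ R s ∧ ∃ u ∈ A s, Ad M' u x) := by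
    intro s x
    rw [hA]
    exact mem_fA_succ M' R _ s x
  have claim : ∀ s u, Sum.inl u ∈ A s → Sum.inl (Sum.inl u) ∈ burn (GS M) v₀ σ (s + 1 + r) := by
    intro s
    induction s with
    | zero =>
      intro u hu
      rw [A0] at hu
      exact absurd hu Sum.inl_ne_inr
    | succ s ih =>
      intro u hu
      rw [As] at hu
      rcases hu with hu | ⟨hnR, x, hx, hxu⟩
      · exact bm _ _ (by omega) (ih u hu)
      · have hnp : Sum.inl (Sum.inl u) ∉ prot σ (s + 2 + r) := by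
          intro hp
          exact hnR ((memR _ _).2 ⟨u, rfl, Or.inl hp⟩)
        rcases x with u' | q'
        · have b1 := ih u' hx
          have := pb4 (s + 1 + r) _ (Sum.inl (Sum.inl u)) b1 (adj_hh M hl ((A1 _ _).1 hxu))
            (by
              have e : s + 1 + r + 1 = s + 2 + r := by ring
              rw [e]
              exact hnp)
          exact bm _ _ (by omega) this
        · obtain ⟨d, hd1, hd2⟩ := (A2 q' u).1.1 hxu
          rw [hqq q', hq₀] at hd1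
          have hd4 : T4 M d := T4_fc' M (by rw [hd1, hq]) sq4
          have hnl : Sum.inr (⟨d, hd4⟩ : {d : D // T4 M d}) ∉ prot σ (r + 1) := by
            intro hp
            refine hnR ((memR _ _).2 ⟨u, rfl, Or.inr ⟨⟨d, hd4⟩, hd1, hd2, ?_⟩⟩)
            rw [add_comm]
            exact hp
          have b1 := pb4 r _ _ hburn (adj_cl M q ⟨d, hd4⟩ hd1) hnl
          have b2 := pb4 (r + 1) _ _ b1 (adj_lh M ⟨d, hd4⟩) (by
            rw [hd2]
            intro hp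
            exact hnp (pm _ _ (by omega) hp))
          rw [hd2] at b2
          exact bm _ _ (by omega) b2
  have claim2 : ∀ u, (∀ s, Sum.inl u ∈ R s) → ∀ t, Sum.inl u ∉ A t := by
    intro u hu t
    induction t with
    | zero =>
      rw [A0]
      exact Sum.inl_ne_inr
    | succ t ih =>
      rw [As]
      rintro (hh | hh)
      · exact ih hh
      · exact hh.1 (hu t)
  have disj : ∀ s t, Disjoint (R s) (A t) := by
    intro s t
    rw [Finset.disjoint_left]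
    intro x hx hxA
    rw [memR] at hx
    obtain ⟨u, rfl, hh | ⟨d, hd⟩⟩ := hx
    · exact (Finset.disjoint_left.1 (pb1 _ _)) hh (claim t u hxA)
    · exact claim2 u (fun s' => (memR _ _).2 ⟨u, rfl, Or.inr ⟨d, hd⟩⟩) t hxA
  have cornA : ∀ d, M.fc d = q.1 → Ad M' (Sum.inr q₀) (Sum.inl (M.vt d)) := by
    intro d hd
    exact (A2 q₀ _).1.2 ⟨d, by rw [hd, hq₀], rfl⟩
  -- natural number form of the row
  obtain ⟨n, rfl⟩ := Int.eq_ofNat_of_zero_le hy0
  have hne : Even n := by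
    have := hye
    rwa [Int.even_coe_nat] at this
  have hnh : n < h := by omega
  have cast1 : ((n : ℤ) + 1) = ((n + 1 : ℕ) : ℤ) := by push_cast; rfl
  have e0 : L.e (f n j) = f n (j + 1) := host.flat.e n j (by omega) (by omega)
  have e1 : L.e (f ((n : ℤ) + 1) j) = f ((n : ℤ) + 1) (j + 1) := by
    rw [cast1]
    exact host.flat.e (n + 1) j (by omega) (by omega)
  have up0 : L.up (f n j) (f ((n : ℤ) + 1) j) :=
    (host.flat.upS n j _ (by omega) hnh hne).2 rfl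
  have up1 : L.up (f n (j + 1)) (f ((n : ℤ) + 1) (j + 1)) :=
    (host.flat.upS n (j + 1) _ (by omega) hnh hne).2 rfl
  have row0 : ∀ i, L.row (f n i) = n := fun i => host.flat.row n i (by omega) (by omega)
  have row1 : ∀ i, L.row (f ((n : ℤ) + 1) i) = n + 1 := by
    intro i
    rw [cast1]
    exact host.flat.row (n + 1) i (by omega) (by omega)
  have c1 : Ad M' (Sum.inr q₀) (Sum.inl (f n j)) := by
    have := cornA (dE (f n j)) hq.symm
    rwa [lm.vE] at this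
  have c2 : Ad M' (Sum.inr q₀) (Sum.inl (f n (j + 1))) := by
    have := cornA (dU (f n (j + 1)) (f ((n : ℤ) + 1) (j + 1)))
      (by rw [hq]; exact (sqf _).2 (Or.inr (Or.inl rfl)))
    rwa [lm.vU _ _ up1] at this
  have c3 : Ad M' (Sum.inr q₀) (Sum.inl (f ((n : ℤ) + 1) (j + 1))) := by
    have := cornA (dW (f ((n : ℤ) + 1) j))
      (by rw [hq]; exact (sqf _).2 (Or.inr (Or.inr (Or.inl rfl))))
    rwa [lm.vW, e1] at this
  have c4 : Ad M' (Sum.inr q₀) (Sum.inl (f ((n : ℤ) + 1) j)) := by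
    have := cornA (dN (f n j) (f ((n : ℤ) + 1) j))
      (by rw [hq]; exact (sqf _).2 (Or.inr (Or.inr (Or.inr rfl))))
    rwa [lm.vN _ _ up0] at this
  have ne01 : f n j ≠ f n (j + 1) := by
    rw [← e0]
    exact fun hh => host.ax.e1 _ hh.symm
  have ne23 : f ((n : ℤ) + 1) j ≠ f ((n : ℤ) + 1) (j + 1) := by
    rw [← e1]
    exact fun hh => host.ax.e1 _ hh.symm
  have nerow : ∀ i i', f n i ≠ f ((n : ℤ) + 1) i' := by
    intro i i' hh
    have := congrArg L.row hh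
    rw [row0, row1] at this
    omega
  have hesc : ∃ v, Ad M' (Sum.inr q₀) v ∧ v ∉ R 0 ∧ v ≠ Sum.inr q₀ := by
    by_contra hcon
    push Not at hcon
    have g1 : Sum.inl (f n j) ∈ R 0 := by
      by_contra hh
      exact Sum.inl_ne_inr (hcon _ c1 hh)
    have g2 : Sum.inl (f n (j + 1)) ∈ R 0 := by
      by_contra hh
      exact Sum.inl_ne_inr (hcon _ c2 hh)
    have g3 : Sum.inl (f ((n : ℤ) + 1) (j + 1)) ∈ R 0 := by
      by_contra hh
      exact Sum.inl_ne_inr (hcon _ c3 hh)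
    have g4 : Sum.inl (f ((n : ℤ) + 1) j) ∈ R 0 := by
      by_contra hh
      exact Sum.inl_ne_inr (hcon _ c4 hh)
    obtain ⟨S, hS⟩ : ∃ S : Finset V, S = {f n j, f n (j + 1), f ((n : ℤ) + 1) (j + 1),
      f ((n : ℤ) + 1) j} := ⟨_, rfl⟩
    have hSc : S.card = 4 := by
      rw [hS, card_insert_of_notMem, card_insert_of_notMem, card_insert_of_notMem, card_singleton]
      · rw [mem_singleton]
        exact fun hh => ne23 hh.symm
      · rw [mem_insert, mem_singleton, not_or]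
        exact ⟨nerow _ _, nerow _ _⟩
      · rw [mem_insert, mem_insert, mem_singleton, not_or, not_or]
        exact ⟨ne01, nerow _ _, nerow _ _⟩
    have hSR : S.image (Sum.inl : V → VC V I) ⊆ R 0 := by
      intro x hx
      obtain ⟨a, ha, rfl⟩ := mem_image.1 hx
      rw [hS, mem_insert, mem_insert, mem_insert, mem_singleton] at ha
      rcases ha with rfl | rfl | rfl | rfl
      · exact g1
      · exact g2
      · exact g3
      · exact g4
    have hc1 := card_le_card hSR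
    rw [card_image_of_injective _ Sum.inl_injective, hSc] at hc1
    have hc2 := cardR 0
    omega
  have fire : Fire M' (1 + r) (Sum.inr q₀) (fA M' R (Sum.inr q₀)) (fQ M' R (Sum.inr q₀)) :=
    h2 _ _ E' F' M' (1 + r) (Sum.inr q₀) R (fun s => monoR s (s + 1) (by omega)) cardR
      (by rw [← hA]; exact disj) hesc
  refine ⟨fA M' R (Sum.inr q₀), fQ M' R (Sum.inr q₀), R, Sum.inr q₀, ?_, ?_,
    fun s => monoR s (s + 1) (by omega), cardR, ?_⟩
  · refine ⟨host, lm, cone, fire, ⟨by omega, by omega⟩, Or.inr ⟨rfl, hye, ⟨j, hI⟩, ⟨q₀, rfl⟩,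
      by omega, ?_⟩⟩
    intro hc
    have hr' : r = 1 := by omega
    obtain ⟨d, hd1, hd2⟩ := hr1 hr'
    refine ⟨Sum.inl (M.vt d), ?_⟩
    rw [mem_fQ]
    refine ⟨(memR _ _).2 ⟨_, rfl, Or.inl (pm _ _ (by omega) hd2)⟩, Sum.inr q₀, ?_, cornA d hd1⟩
    exact mem_singleton_self _
  · intro s x hx
    exact ((mem_fQ M' R _ s x).1 hx).1
  · intro s u hu
    rw [← hA] at hu
    exact bm _ _ (by omega) (claim s u hu)

end Pool.Agent.Helper76.UB
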