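import Pool.Agent.Helper74.UB.Goals5

/-!
# UB, ROT: from plane maps to rotation systems
-/

namespace Pool.Agent.Helper76.UB

open Finset Equiv Helper28.VF Pool.Agent.Helper74.UB
open scoped Classical

theorem card_eq_of_ker {D X Y : Type} (p : D → X) (q : D → Y) (hp : Function.Surjective p)
    (hq : Function.Surjective q) (h : ∀ d e, p d = p e ↔ q d = q e) : Nat.card X = Nat.card Y := by
  refine Nat.card_congr (Equiv.ofBijective (fun x => q (Function.surjInv hp x)) ⟨?_, ?_⟩)
  · intro x y hxy
    have h1 := (h _ _).2 hxy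
    rw [Function.surjInv_eq hp x, Function.surjInv_eq hp y] at h1
    exact h1
  · intro y
    obtain ⟨d, hd⟩ := hq y
    refine ⟨p d, ?_⟩
    rw [← hd]
    exact (h _ _).1 (Function.surjInv_eq hp (p d))

theorem sameCycle_congr {D X : Type} (ψ : D ≃ X) (f : Perm D) (x y : X) :
    (ψ.permCongr f).SameCycle x y ↔ f.SameCycle (ψ.symm x) (ψ.symm y) := by
  have key : ∀ n : ℤ, ((ψ.permCongr f) ^ n) x = ψ ((f ^ n) (ψ.symm x)) := by
    intro n
    have h1 : (ψ.permCongr f) ^ n = ψ.permCongr (f ^ n) := by
      have := map_zpow ψ.permCongrHom f n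
      exact this.symm
    rw [h1]
    rfl
  unfold Perm.SameCycle
  constructor
  · rintro ⟨n, hn⟩
    refine ⟨n, ?_⟩
    rw [key] at hn
    rw [← hn, Equiv.symm_apply_apply]
  · rintro ⟨n, hn⟩
    refine ⟨n, ?_⟩
    rw [key, hn, Equiv.apply_symm_apply]

/-- **ROT.** -/
theorem rot : StmtRot := by
  intro D V E F _ _ _ _ M hl hs
  have tga : ∀ d, tg M (M.α d) = M.vt d := by
    intro d
    unfold tg
    rw [M.α_inv]
  let H : SimpleGraph V :=
    { Adj := fun u v => Ad M u v
      symm := ⟨fun u v huv => by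
        obtain ⟨d, rfl, rfl⟩ := huv
        exact ⟨M.α d, rfl, tga d⟩⟩
      loopless := ⟨fun u hu => by
        obtain ⟨d, h1, h2⟩ := hu
        exact hl d (h2.trans h1.symm)⟩ }
  have hH : ∀ u v, H.Adj u v ↔ Ad M u v := fun u v => Iff.rfl
  let g : D → H.Dart := fun d => ⟨(M.vt d, tg M d), ⟨d, rfl, rfl⟩⟩
  have gbij : Function.Bijective g := by
    constructor
    · intro d e hde
      have h1 : (M.vt d, tg M d) = (M.vt e, tg M e) := congrArg (fun x => x.toProd) hde
      exact hs d e (congrArg Prod.fst h1) (congrArg Prod.snd h1)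
    · rintro ⟨⟨u, v⟩, huv⟩
      have huv' : Ad M u v := huv
      obtain ⟨d, h1, h2⟩ := huv'
      refine ⟨d, SimpleGraph.Dart.ext _ _ ?_⟩
      change (M.vt d, tg M d) = (u, v)
      rw [h1, h2]
  let ψ : D ≃ H.Dart := Equiv.ofBijective g gbij
  have hψ : ∀ d, ψ d = g d := fun d => rfl
  have hrev : Pool.Agent.Helper34.FF.Rot.rev H = ψ.permCongr M.α := by
    apply Equiv.ext
    intro x
    obtain ⟨d, rfl⟩ := ψ.surjective x
    have h1 : (ψ.permCongr M.α) (ψ d) = ψ (M.α d) := by
      simp [Equiv.permCongr_apply]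
    rw [h1, hψ, hψ]
    change (g d).symm = g (M.α d)
    apply SimpleGraph.Dart.ext
    change (tg M d, M.vt d) = (M.vt (M.α d), tg M (M.α d))
    rw [tga]
    rfl
  have hmul : ψ.permCongr M.σ * Pool.Agent.Helper34.FF.Rot.rev H = ψ.permCongr (M.σ * M.α) := by
    rw [hrev]
    exact (map_mul ψ.permCongrHom M.σ M.α).symm
  have hD : Nonempty D := by
    by_contra hcon
    rw [not_nonempty_iff] at hcon
    have hV : IsEmpty V := ⟨fun v => by
      obtain ⟨d, -⟩ := M.vt_surj v
      exact hcon.false d⟩
    have hE : IsEmpty E := ⟨fun v => by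
      obtain ⟨d, -⟩ := M.ed_surj v
      exact hcon.false d⟩
    have hF : IsEmpty F := ⟨fun v => by
      obtain ⟨d, -⟩ := M.fc_surj v
      exact hcon.false d⟩
    have := M.euler
    rw [Fintype.card_eq_zero, Fintype.card_eq_zero, Fintype.card_eq_zero] at this
    omega
  refine ⟨H, hH, ?_, ψ.permCongr M.σ, ?_, ?_⟩
  · -- connected
    obtain ⟨d₀⟩ := hD
    have hP := M.conn (fun d => H.Reachable (M.vt d₀) (M.vt d)) ⟨d₀, SimpleGraph.Reachable.refl _⟩
      (by
        intro d hd
        have : M.vt (M.σ d) = M.vt d :=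
          (M.vt_iff (M.σ d) d).2 (Perm.SameCycle.symm (Perm.sameCycle_apply_right.2
            (Perm.SameCycle.refl _ _)))
        rw [this]
        exact hd)
      (by
        intro d hd
        refine hd.trans (SimpleGraph.Adj.reachable ?_)
        exact ⟨d, rfl, rfl⟩)
    haveI : Nonempty V := ⟨M.vt d₀⟩
    refine SimpleGraph.Connected.mk ?_
    intro u v
    obtain ⟨d, rfl⟩ := M.vt_surj u
    obtain ⟨e, rfl⟩ := M.vt_surj v
    exact (hP d).symm.trans (hP e)
  · intro x y
    rw [sameCycle_congr, ← M.vt_iff]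
    obtain ⟨d, rfl⟩ := ψ.surjective x
    obtain ⟨e, rfl⟩ := ψ.surjective y
    rw [Equiv.symm_apply_apply, Equiv.symm_apply_apply]
    exact Iff.rfl
  · have hF : Pool.Agent.Helper34.FF.Rot.numFaces H (ψ.permCongr M.σ) = Nat.card F := by
      unfold Pool.Agent.Helper34.FF.Rot.numFaces
      refine card_eq_of_ker (D := H.Dart) (fun x => Quotient.mk _ x) (fun x => M.fc (ψ.symm x))
        Quotient.mk_surjective ?_ ?_
      · intro q
        obtain ⟨d, rfl⟩ := M.fc_surj q
        exact ⟨ψ d, by simp⟩
      · intro x y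
        rw [M.fc_iff, ← sameCycle_congr, ← hmul]
        exact Quotient.eq (r := Perm.SameCycle.setoid (ψ.permCongr M.σ *
          Pool.Agent.Helper34.FF.Rot.rev H))
    have hE : Nat.card H.edgeSet = Nat.card E := by
      refine card_eq_of_ker (D := D) (fun d => (⟨(g d).edge, (g d).edge_mem⟩ : H.edgeSet))
        (fun d => M.ed d) ?_ M.ed_surj ?_
      · rintro ⟨e, hmem⟩
        induction e using Sym2.ind with
        | _ v w =>
          have hvw : Ad M v w := hmem
          obtain ⟨d, rfl, rfl⟩ := hvw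
          exact ⟨d, rfl⟩
      · intro d e
        rw [Subtype.mk.injEq, SimpleGraph.dart_edge_eq_iff, M.ed_iff]
        have hsym : ∀ e, (g e).symm = g (M.α e) := by
          intro e
          apply SimpleGraph.Dart.ext
          change (tg M e, M.vt e) = (M.vt (M.α e), tg M (M.α e))
          rw [tga]
          rfl
        rw [hsym, gbij.1.eq_iff, gbij.1.eq_iff]
        constructor
        · rintro (hh | hh)
          · exact Or.inl hh.symm
          · right
            rw [hh, M.α_inv]
        · rintro (hh | hh)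
          · exact Or.inl hh.symm
          · right
            rw [hh, M.α_inv]
    rw [hF, hE, Nat.card_eq_fintype_card, Nat.card_eq_fintype_card, Nat.card_eq_fintype_card]
    exact M.euler

end Pool.Agent.Helper76.UB
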